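import Pool.Agent.H387R3.ZT.Stmts

/-!
Project ZT, task ZT-C1 (`TaskC1`): the norm of `w` down to `k(u)` is constant modulo `X ^ M`.
-/

set_option autoImplicit false

open Polynomial IsDedekindDomain IntermediateField FF

namespace Pool.Agent.H996R3.ZTC1

open Pool.Agent.H387R3.ZT

/-- functions regular where `f` is regular are integral over `k[f]` -/
theorem integral_of_reg {k F : Type} [Field k] [Field F] [Algebra k F] [h : IsFF k F] {f : F}
    (hf : Transcendental k f) (hsep : Algebra.IsSeparable k⟮f⟯ F) (x : F)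
    (hx : ∀ v : Place k F, 0 ≤ v.ord f → v.Reg x) : IsIntegral (Algebra.adjoin k {f}) x := by
  open scoped algebraAdjoinAdjoin in
  let A := Algebra.adjoin k {f}
  let e := Polynomial.algEquivOfTranscendental k f hf
  have hpid : IsPrincipalIdealRing A := IsPrincipalIdealRing.of_surjective e.toRingEquiv e.surjective
  have hded : IsDedekindDomain A := inferInstance
  have hfin := IsFF.finite hf
  let B := integralClosure A F
  have : IsDedekindDomain B := integralClosure.isDedekindDomain A k⟮f⟯ F
  have : IsFractionRing B F := integralClosure.isFractionRing_of_finite_extension k⟮f⟯ F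
  have hsc : IsScalarTower k B F := by
    refine IsScalarTower.of_algebraMap_eq fun c => ?_
    rw [IsScalarTower.algebraMap_apply k A B, ← IsScalarTower.algebraMap_apply A B F,
      ← IsScalarTower.algebraMap_apply k A F]
  have hf0 : f ≠ 0 := by
    rintro rfl
    exact hf isAlgebraic_zero
  have hfB : IsIntegral A f :=
    isIntegral_algebraMap (R := A) (A := F) (x := ⟨f, Algebra.self_mem_adjoin_singleton k f⟩)
  have hmem : x ∈ (algebraMap B F).range := by
    refine HeightOneSpectrum.mem_integers_of_valuation_le_one F x fun P => ?_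
    by_cases hx0 : x = 0
    · rw [hx0, map_zero]
      exact zero_le_one
    · rw [← placeOf_nonneg (k := k) P hx0]
      have h1 : (placeOf (k := k) (L := F) P).Reg (algebraMap B F ⟨f, hfB⟩) := placeOf_reg P _
      have h2 : (placeOf (k := k) (L := F) P).Reg f := h1
      exact ((placeOf (k := k) (L := F) P).reg_iff hx0).1
        (hx _ (((placeOf (k := k) (L := F) P).reg_iff hf0).1 h2))
  obtain ⟨b, hb⟩ := hmem
  rw [← hb]
  exact b.2

/-- integral elements of `k(f)` lie in `k[f]` -/
theorem mem_adjoin_of_integral {k F : Type} [Field k] [Field F] [Algebra k F] {f : F}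
    (hf : Transcendental k f) (x : F) (hx : x ∈ k⟮f⟯) (hi : IsIntegral (Algebra.adjoin k {f}) x) :
    x ∈ Algebra.adjoin k {f} := by
  open scoped algebraAdjoinAdjoin in
  let A := Algebra.adjoin k {f}
  let e := Polynomial.algEquivOfTranscendental k f hf
  have hpid : IsPrincipalIdealRing A := IsPrincipalIdealRing.of_surjective e.toRingEquiv e.surjective
  have hic : IsIntegrallyClosed A := inferInstance
  have h1 : IsIntegral A (⟨x, hx⟩ : k⟮f⟯) := by
    have h2 : algebraMap k⟮f⟯ F ⟨x, hx⟩ = x := rfl
    rw [← h2] at hi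
    exact (isIntegral_algebraMap_iff (algebraMap k⟮f⟯ F).injective).1 hi
  obtain ⟨y, hy⟩ := (IsIntegrallyClosed.isIntegral_iff (R := A) (K := k⟮f⟯)).1 h1
  have h3 : ((algebraMap A k⟮f⟯ y : k⟮f⟯) : F) = x := by rw [hy]
  rw [← h3]
  exact y.2

theorem prod_coeff {A Ω : Type} [CommRing A] [Field Ω] [Algebra A Ω] (c : Ω) (M : ℕ) {ι : Type}
    (s : Finset ι) (P : ι → Polynomial Ω) (h : ∀ i ∈ s, ∀ j < M, IsIntegral A (c ^ j * (P i).coeff j)) :
    ∀ j < M, IsIntegral A (c ^ j * (∏ i ∈ s, P i).coeff j) := by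
  refine Finset.prod_induction P (fun Q => ∀ j < M, IsIntegral A (c ^ j * Q.coeff j)) ?_ ?_ h
  · intro Q R hQ hR j hj
    rw [coeff_mul, Finset.mul_sum]
    refine IsIntegral.sum _ fun ab hab => ?_
    rw [Finset.HasAntidiagonal.mem_antidiagonal] at hab
    have h1 := (hQ ab.1 (by omega)).mul (hR ab.2 (by omega))
    convert h1 using 1
    rw [← hab, pow_add]
    ring
  · intro j hj
    rw [coeff_one]
    split_ifs with h0
    · subst h0
      rw [pow_zero, mul_one]
      exact isIntegral_one
    · rw [mul_zero]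
      exact isIntegral_zero

section norm

variable {K L Ω : Type} [Field K] [Field L] [Algebra K L] [FiniteDimensional K L]

theorem eval_NP (w : L[X]) (t : K) :
    (NP K w).eval t = Algebra.norm K (w.eval (algebraMap K L t)) := by
  unfold NP
  rw [_root_.eval_det, AlgEquiv.apply_symm_apply,
    Algebra.norm_eq_matrix_det (Module.finBasis K L)]
  congr 1
  have h1 : Matrix.scalar (Fin (Module.finrank K L)) t =
      (Algebra.leftMulMatrix (Module.finBasis K L)).toRingHom (algebraMap K L t) := by
    change _ = Algebra.leftMulMatrix (Module.finBasis K L) (algebraMap K L t)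
    rw [AlgHom.commutes]
    rfl
  rw [h1, eval_map, eval₂_at_apply]
  rfl

theorem map_NP [Algebra.IsSeparable K L] [Infinite K] [Field Ω] [Algebra K Ω] [IsAlgClosed Ω]
    (w : L[X]) :
    (NP K w).map (algebraMap K Ω) = ∏ σ : L →ₐ[K] Ω, w.map σ.toRingHom := by
  apply Polynomial.eq_of_infinite_eval_eq
  refine Set.Infinite.mono ?_ (Set.infinite_range_of_injective (algebraMap K Ω).injective)
  rintro _ ⟨t, rfl⟩
  rw [Set.mem_ofPred_eq, eval_map, eval₂_at_apply, eval_NP, Algebra.norm_eq_prod_embeddings K Ω,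
    eval_prod]
  refine Finset.prod_congr rfl fun σ _ => ?_
  rw [eval_map]
  have h1 : algebraMap K Ω t = σ.toRingHom (algebraMap K L t) := (σ.commutes t).symm
  rw [h1, eval₂_at_apply]
  rfl

end norm

theorem infinite_of_transcendental {k F : Type} [Field k] [Field F] [Algebra k F] {u : F}
    (hu : Transcendental k u) : Infinite k⟮u⟯ := by
  have hinj : Function.Injective (fun p : k[X] => (⟨aeval u p, by
      exact IntermediateField.algebra_adjoin_le_adjoin k _
        (Algebra.adjoin_singleton_eq_range_aeval k u ▸ ⟨p, rfl⟩)⟩ : k⟮u⟯)) := by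
    intro p q hpq
    have h1 : aeval u p = aeval u q := congrArg Subtype.val hpq
    exact (transcendental_iff_injective.1 hu) h1
  exact Infinite.of_injective _ hinj

theorem isIntegral_map {k F : Type} [Field k] [Field F] [Algebra k F] {Ω : Type} [Field Ω]
    [Algebra F Ω] (A : Subalgebra k F) (K : IntermediateField k F) (hA : ∀ a ∈ A, a ∈ K)
    (σ : F →ₐ[K] Ω) {x : F} (hx : IsIntegral A x) : IsIntegral A (σ x) := by
  let σ' : F →ₐ[A] Ω :=
    { σ.toRingHom with
      commutes' := fun a => σ.commutes (⟨a.1, hA a.1 a.2⟩ : K) }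
  exact hx.map σ'

theorem deg_zero {k : Type} [Field k] (e j M : ℕ) (hj : j < M) (H R : k[X])
    (hR : R.natDegree ≤ e) (h : X ^ e * H ^ M = R * X ^ j) : H.natDegree = 0 := by
  by_cases hH : H = 0
  · rw [hH, natDegree_zero]
  · have hR0 : R ≠ 0 := by
      rintro rfl
      rw [zero_mul] at h
      exact (mul_ne_zero (pow_ne_zero e X_ne_zero) (pow_ne_zero M hH)) h
    have h1 := congrArg natDegree h
    rw [natDegree_mul (pow_ne_zero e X_ne_zero) (pow_ne_zero M hH),
      natDegree_mul hR0 (pow_ne_zero j X_ne_zero), natDegree_pow, natDegree_pow, natDegree_pow,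
      natDegree_X] at h1
    have h2 : M * H.natDegree < M := by omega
    by_contra h0
    have h3 : 1 ≤ H.natDegree := Nat.one_le_iff_ne_zero.2 h0
    have := Nat.mul_le_mul_left M h3
    omega

theorem taskC1 : TaskC1 := by
  intro k F _ _ _ _ _ u M hu _ hsep w hw0 hreg hpole
  have hsep' : Algebra.IsSeparable k⟮u⟯ F := hsep
  have hu0 : u ≠ 0 := by
    rintro rfl
    exact hu isAlgebraic_zero
  have hui : Transcendental k u⁻¹ := fun h => hu (by simpa using h.inv)
  have hsepi : Algebra.IsSeparable k⟮u⁻¹⟯ F := by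
    rw [adjoin_inv]
    exact hsep
  let Ω := AlgebraicClosure F
  have hinf : Infinite k⟮u⟯ := infinite_of_transcendental hu
  have hmap := map_NP (K := k⟮u⟯) (L := F) (Ω := Ω) w
  set N := NP k⟮u⟯ w with hN
  -- integrality over `k[u]`
  have h1 : ∀ j, ((N.coeff j : k⟮u⟯) : F) ∈ Algebra.adjoin k {u} := by
    intro j
    apply mem_adjoin_of_integral hu _ (N.coeff j).2
    have h2 : IsIntegral (Algebra.adjoin k {u}) ((N.map (algebraMap k⟮u⟯ Ω)).coeff j) := by
      rw [hmap]
      have := prod_coeff (A := Algebra.adjoin k {u}) (1 : Ω) (j + 1) Finset.univ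
        (fun σ : F →ₐ[k⟮u⟯] Ω => w.map σ.toRingHom) (fun σ _ i _ => by
          rw [one_pow, one_mul, coeff_map]
          exact isIntegral_map _ _ (fun a ha => IntermediateField.algebra_adjoin_le_adjoin k _ ha)
            σ (integral_of_reg hu hsep' _ fun v hv => hreg v hv i)) j (by omega)
      rwa [one_pow, one_mul] at this
    rw [coeff_map] at h2
    have h3 : algebraMap k⟮u⟯ Ω (N.coeff j) = algebraMap F Ω ((N.coeff j : k⟮u⟯) : F) := rfl
    rw [h3] at h2
    exact (isIntegral_algebraMap_iff (algebraMap F Ω).injective).1 h2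
  -- integrality at infinity
  have h4 : ∀ j < M, (u⁻¹) ^ j * ((N.coeff j : k⟮u⟯) : F) ^ M ∈ Algebra.adjoin k {u⁻¹} := by
    intro j hj
    have hM : 0 < M := by omega
    obtain ⟨c, hc⟩ := IsAlgClosed.exists_pow_nat_eq (algebraMap F Ω u⁻¹) hM
    have hmemK : ∀ a ∈ Algebra.adjoin k {u⁻¹}, a ∈ k⟮u⟯ := by
      intro a ha
      rw [← adjoin_inv]
      exact IntermediateField.algebra_adjoin_le_adjoin k _ ha
    have huK : u ∈ k⟮u⟯ := IntermediateField.mem_adjoin_simple_self k u
    apply mem_adjoin_of_integral hui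
    · rw [adjoin_inv]
      exact mul_mem (pow_mem (inv_mem huK) j) (pow_mem (N.coeff j).2 M)
    have h5 : IsIntegral (Algebra.adjoin k {u⁻¹}) (c ^ j * (N.map (algebraMap k⟮u⟯ Ω)).coeff j) := by
      rw [hmap]
      refine prod_coeff (A := Algebra.adjoin k {u⁻¹}) c M Finset.univ
        (fun σ : F →ₐ[k⟮u⟯] Ω => w.map σ.toRingHom) (fun σ _ i hi => ?_) j hj
      have h6 : IsIntegral (Algebra.adjoin k {u⁻¹}) (σ ((u⁻¹) ^ i * w.coeff i ^ M)) := by
        refine isIntegral_map _ _ hmemK σ (integral_of_reg hui hsepi _ fun v hv => ?_)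
        rw [v.ord_inv] at hv
        by_cases hwi : w.coeff i = 0
        · left
          rw [hwi, zero_pow hM.ne', mul_zero]
        · right
          rw [v.ord_mul (pow_ne_zero _ (inv_ne_zero hu0)) (pow_ne_zero _ hwi), v.ord_pow,
            v.ord_pow, v.ord_inv]
          rcases lt_or_eq_of_le (show v.ord u ≤ 0 by omega) with h0 | h0
          · have := hpole v h0 i hi hwi
            linarith
          · have h7 := (v.reg_iff hwi).1 (hreg v (by omega) i)
            rw [h0]
            have : (0 : ℤ) ≤ M * v.ord (w.coeff i) := mul_nonneg (by positivity) h7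
            linarith
      apply IsIntegral.of_pow hM
      convert h6 using 1
      have h8 : σ u⁻¹ = algebraMap F Ω u⁻¹ := σ.commutes (⟨u⁻¹, inv_mem huK⟩ : k⟮u⟯)
      rw [map_mul, map_pow, map_pow, h8, ← hc, coeff_map, mul_pow]
      rw [← pow_mul, ← pow_mul, mul_comm i M]
      rfl
    have h9 := h5.pow M
    rw [coeff_map] at h9
    have h10 : (c ^ j * algebraMap k⟮u⟯ Ω (N.coeff j)) ^ M =
        algebraMap F Ω ((u⁻¹) ^ j * ((N.coeff j : k⟮u⟯) : F) ^ M) := by
      rw [map_mul, map_pow, map_pow, ← hc, mul_pow, ← pow_mul, ← pow_mul, mul_comm j M]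
      rfl
    rw [h10] at h9
    exact (isIntegral_algebraMap_iff (algebraMap F Ω).injective).1 h9
  -- the coefficients are constants
  have h11 : ∀ j, ∃ c : k, j < M → ((N.coeff j : k⟮u⟯) : F) = algebraMap k F c := by
    intro j
    by_cases hj : j < M
    swap
    · exact ⟨0, fun h => absurd h hj⟩
    have ha := h1 j
    have hb := h4 j hj
    rw [Algebra.adjoin_singleton_eq_range_aeval] at ha hb
    obtain ⟨H, hH⟩ := ha
    obtain ⟨G, hG⟩ := hb
    change aeval u H = _ at hH
    change aeval u⁻¹ G = _ at hG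
    have hdeg : H.natDegree = 0 := by
      let _ : Invertible u⁻¹ := invertibleOfNonzero (inv_ne_zero hu0)
      have h12 := eval₂_reverse_mul_pow (algebraMap k F) (u⁻¹) G
      rw [invOf_eq_inv, inv_inv] at h12
      apply deg_zero G.natDegree j M hj H G.reverse (reverse_natDegree_le G)
      apply transcendental_iff_injective.1 hu
      rw [map_mul, map_mul, map_pow, map_pow, map_pow, aeval_X]
      have h13 : aeval u⁻¹ G = aeval u G.reverse * (u⁻¹) ^ G.natDegree := h12.symm
      rw [hG, ← hH] at h13
      have hue : u ^ G.natDegree ≠ 0 := pow_ne_zero _ hu0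
      have huj : u ^ j ≠ 0 := pow_ne_zero _ hu0
      rw [inv_pow, inv_pow] at h13
      field_simp at h13
      linear_combination h13
    refine ⟨H.coeff 0, fun _ => ?_⟩
    rw [← hH, eq_C_of_natDegree_eq_zero hdeg, aeval_C, coeff_C_zero]
  choose c hc using h11
  refine ⟨∑ j ∈ Finset.range M, monomial j (c j), fun j hj => ?_⟩
  apply Subtype.ext
  rw [hc j hj, finsetSum_coeff]
  rw [Finset.sum_eq_single j (fun i _ hij => by rw [coeff_monomial, if_neg hij])
    (fun h => absurd (Finset.mem_range.2 hj) h), coeff_monomial, if_pos rfl]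
  rfl

end Pool.Agent.H996R3.ZTC1
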